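import Pool.Agent.Helper25.PCap.GoalsTools

/-!
Planar p-capacity (MP_576c25_an): the packet CIRC (circle means of a `C²` function).
-/

set_option autoImplicit false

open MeasureTheory Set Filter Topology
open scoped ContDiff Real

noncomputable section

namespace Pool.Agent.Helper27.PCap

open Pool.Agent.Helper25.PCap

/-- the point of the circle -/
def gam (x : ℝ × ℝ) (r φ : ℝ) : ℝ × ℝ := (x.1 + r * Real.cos φ, x.2 + r * Real.sin φ)

theorem gam_mem {x : ℝ × ℝ} {R : ℝ} {O : Set (ℝ × ℝ)}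
    (hO : {y : ℝ × ℝ | (y.1 - x.1) ^ 2 + (y.2 - x.2) ^ 2 ≤ R ^ 2} ⊆ O) {r : ℝ}
    (hr : r ∈ Icc 0 R) (φ : ℝ) : gam x r φ ∈ O := by
  apply hO
  simp only [gam, mem_ofPred_eq]
  have h1 := Real.sin_sq_add_cos_sq φ
  have h2 : (x.1 + r * Real.cos φ - x.1) ^ 2 + (x.2 + r * Real.sin φ - x.2) ^ 2 = r ^ 2 := by
    linear_combination r ^ 2 * h1
  rw [h2]
  exact pow_le_pow_left₀ hr.1 hr.2 2

theorem continuous_gam (x : ℝ × ℝ) : Continuous (fun p : ℝ × ℝ => gam x p.1 p.2) := by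
  unfold gam
  fun_prop

theorem lin2 (L : ℝ × ℝ →L[ℝ] ℝ) (a b : ℝ) : L (a, b) = a * L (1, 0) + b * L (0, 1) := by
  have : ((a, b) : ℝ × ℝ) = a • (1, 0) + b • (0, 1) := by simp
  rw [this, map_add, map_smul, map_smul, smul_eq_mul, smul_eq_mul]

theorem hasDerivAt_gam_r (x : ℝ × ℝ) (r φ : ℝ) :
    HasDerivAt (fun s => gam x s φ) (Real.cos φ, Real.sin φ) r := by
  unfold gam
  apply HasDerivAt.prodMk
  · simpa using ((hasDerivAt_id r).mul_const (Real.cos φ)).const_add x.1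
  · simpa using ((hasDerivAt_id r).mul_const (Real.sin φ)).const_add x.2

theorem hasDerivAt_gam_phi (x : ℝ × ℝ) (r φ : ℝ) :
    HasDerivAt (fun s => gam x r s) (r * -Real.sin φ, r * Real.cos φ) φ := by
  unfold gam
  apply HasDerivAt.prodMk
  · exact ((Real.hasDerivAt_cos φ).const_mul r).const_add x.1
  · exact ((Real.hasDerivAt_sin φ).const_mul r).const_add x.2

theorem hasDerivAt_r {g : ℝ × ℝ → ℝ} {x : ℝ × ℝ} {r φ : ℝ}
    (hg : DifferentiableAt ℝ g (gam x r φ)) :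
    HasDerivAt (fun s => g (gam x s φ))
      (Real.cos φ * D1 g (gam x r φ) + Real.sin φ * D2 g (gam x r φ)) r := by
  have h := hg.hasFDerivAt.comp_hasDerivAt r (hasDerivAt_gam_r x r φ)
  rw [lin2] at h
  exact h

theorem hasDerivAt_phi {g : ℝ × ℝ → ℝ} {x : ℝ × ℝ} {r φ : ℝ}
    (hg : DifferentiableAt ℝ g (gam x r φ)) :
    HasDerivAt (fun s => g (gam x r s))
      (r * -Real.sin φ * D1 g (gam x r φ) + r * Real.cos φ * D2 g (gam x r φ)) φ := by
  have h := hg.hasFDerivAt.comp_hasDerivAt φ (hasDerivAt_gam_phi x r φ)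
  rw [lin2] at h
  exact h

/-- Continuity of a parametric integral. -/
theorem continuousOn_param {F : ℝ × ℝ → ℝ} {a b R : ℝ} (hR : 0 ≤ R)
    (hF : ContinuousOn F (Icc 0 R ×ˢ univ)) :
    ContinuousOn (fun r => ∫ φ in a..b, F (r, φ)) (Icc 0 R) := by
  have hc : Continuous (fun p : ℝ × ℝ => F ((projIcc 0 R hR p.1 : ℝ), p.2)) := by
    refine hF.comp_continuous ?_ ?_
    · exact (continuous_subtype_val.comp (continuous_projIcc.comp continuous_fst)).prodMk
        continuous_snd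
    · intro p
      exact ⟨(projIcc 0 R hR p.1).2, mem_univ _⟩
  have h2 : Continuous (fun r : ℝ => ∫ φ in a..b, F ((projIcc 0 R hR r : ℝ), φ)) :=
    intervalIntegral.continuous_parametric_intervalIntegral_of_continuous' (f := fun r φ =>
      F ((projIcc 0 R hR r : ℝ), φ)) hc a b
  refine h2.continuousOn.congr ?_
  intro r hr
  simp only
  rw [projIcc_of_mem hR hr]

/-- Differentiation of a parametric integral. -/
theorem hasDerivAt_param {F F' : ℝ × ℝ → ℝ} {a b R : ℝ}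
    (hF : ContinuousOn F (Icc 0 R ×ˢ univ)) (hF' : ContinuousOn F' (Icc 0 R ×ˢ univ))
    (hd : ∀ r ∈ Ioo 0 R, ∀ φ, HasDerivAt (fun s => F (s, φ)) (F' (r, φ)) r) {r : ℝ}
    (hr : r ∈ Ioo 0 R) :
    HasDerivAt (fun s => ∫ φ in a..b, F (s, φ)) (∫ φ in a..b, F' (r, φ)) r := by
  obtain ⟨C, hC⟩ := (isCompact_Icc.prod (isCompact_uIcc (a := a) (b := b))).exists_bound_of_continuousOn
    (hF'.mono (prod_mono (Subset.refl (Icc 0 R)) (subset_univ (uIcc a b))))
  have hline : ∀ s ∈ Icc 0 R, ∀ G : ℝ × ℝ → ℝ, ContinuousOn G (Icc 0 R ×ˢ univ) →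
      Continuous (fun φ => G (s, φ)) := by
    intro s hs G hG
    exact hG.comp_continuous (by fun_prop) (fun φ => ⟨hs, mem_univ _⟩)
  refine (intervalIntegral.hasDerivAt_integral_of_dominated_loc_of_deriv_le
    (F := fun s φ => F (s, φ)) (F' := fun s φ => F' (s, φ)) (s := Ioo 0 R) (bound := fun _ => C)
    (Ioo_mem_nhds hr.1 hr.2) ?_ ?_ ?_ ?_ ?_ ?_).2
  · filter_upwards [Ioo_mem_nhds hr.1 hr.2] with s hs
    exact (hline s ⟨hs.1.le, hs.2.le⟩ F hF).aestronglyMeasurable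
  · exact (hline r ⟨hr.1.le, hr.2.le⟩ F hF).intervalIntegrable _ _
  · exact (hline r ⟨hr.1.le, hr.2.le⟩ F' hF').aestronglyMeasurable
  · refine Eventually.of_forall fun φ hφ s hs => ?_
    exact hC (s, φ) ⟨⟨hs.1.le, hs.2.le⟩, uIoc_subset_uIcc hφ⟩
  · exact intervalIntegrable_const
  · refine Eventually.of_forall fun φ _ s hs => ?_
    exact hd s hs φ

theorem pkCirc : GCirc := by
  intro ψ x R O hR hO hdisc hψ
  -- regularity
  have hnO : ∀ z ∈ O, O ∈ 𝓝 z := fun z hz => hO.mem_nhds hz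
  have hfd : ContDiffOn ℝ 1 (fderiv ℝ ψ) O := hψ.fderiv_of_isOpen hO (by norm_num)
  have hD1 : ContDiffOn ℝ 1 (D1 ψ) O := hfd.clm_apply contDiffOn_const
  have hD2 : ContDiffOn ℝ 1 (D2 ψ) O := hfd.clm_apply contDiffOn_const
  have hcD : ∀ g : ℝ × ℝ → ℝ, ContDiffOn ℝ 1 g O → ContinuousOn (D1 g) O ∧
      ContinuousOn (D2 g) O := by
    intro g hg
    have h1 : ContDiffOn ℝ 0 (fderiv ℝ g) O := hg.fderiv_of_isOpen hO (by norm_num)
    exact ⟨h1.continuousOn.clm_apply continuousOn_const,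
      h1.continuousOn.clm_apply continuousOn_const⟩
  have hdiff : ∀ g : ℝ × ℝ → ℝ, ContDiffOn ℝ 1 g O → ∀ z ∈ O, DifferentiableAt ℝ g z :=
    fun g hg z hz => (hg.differentiableOn one_ne_zero).differentiableAt (hnO z hz)
  have hsymm : ∀ z ∈ O, D2 (D1 ψ) z = D1 (D2 ψ) z := by
    intro z hz
    have h1 : IsSymmSndFDerivAt ℝ ψ z := (hψ.contDiffAt (hnO z hz)).isSymmSndFDerivAt (by simp)
    have h2 : DifferentiableAt ℝ (fderiv ℝ ψ) z :=
      (hfd.differentiableOn one_ne_zero).differentiableAt (hnO z hz)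
    have h3 : ∀ v : ℝ × ℝ, fderiv ℝ (fun y => fderiv ℝ ψ y v) z =
        (fderiv ℝ (fderiv ℝ ψ) z).flip v := by
      intro v
      rw [fderiv_clm_apply h2 (differentiableAt_const v)]
      ext <;> simp
    unfold D1 D2
    rw [h3, h3]
    exact h1 _ _
  have hcg : ∀ g : ℝ × ℝ → ℝ, ContinuousOn g O →
      ContinuousOn (fun p : ℝ × ℝ => g (gam x p.1 p.2)) (Icc 0 R ×ˢ univ) := by
    intro g hg
    exact hg.comp (continuous_gam x).continuousOn (fun p hp => gam_mem hdisc hp.1 p.2)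
  set Δ : ℝ × ℝ → ℝ := fun y => D1 (D1 ψ) y + D2 (D2 ψ) y with hΔ
  have hΔc : ContinuousOn Δ O := (hcD _ hD1).1.add (hcD _ hD2).2
  have hcm : ∀ g : ℝ × ℝ → ℝ, ContinuousOn g O → ContinuousOn (cmean g x) (Icc 0 R) := by
    intro g hg
    exact continuousOn_const.mul (continuousOn_param hR.le (hcg g hg))
  have hψ1 : ContDiffOn ℝ 1 ψ O := hψ.of_le (by norm_num)
  refine ⟨hcm ψ hψ.continuousOn, ?_, hcm Δ hΔc, ?_⟩
  · unfold cmean
    simp only [zero_mul, add_zero]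
    rw [intervalIntegral.integral_const]
    have := Real.pi_pos
    simp only [smul_eq_mul]
    field_simp
    simp
  -- the functions A and B
  have hcos : ContinuousOn (fun p : ℝ × ℝ => Real.cos p.2) (Icc 0 R ×ˢ univ) := by fun_prop
  have hsin : ContinuousOn (fun p : ℝ × ℝ => Real.sin p.2) (Icc 0 R ×ˢ univ) := by fun_prop
  set A : ℝ × ℝ → ℝ := fun p => Real.cos p.2 * D1 ψ (gam x p.1 p.2) +
    Real.sin p.2 * D2 ψ (gam x p.1 p.2) with hA
  set A' : ℝ × ℝ → ℝ := fun p => Real.cos p.2 * (Real.cos p.2 * D1 (D1 ψ) (gam x p.1 p.2) +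
      Real.sin p.2 * D2 (D1 ψ) (gam x p.1 p.2)) +
    Real.sin p.2 * (Real.cos p.2 * D1 (D2 ψ) (gam x p.1 p.2) +
      Real.sin p.2 * D2 (D2 ψ) (gam x p.1 p.2)) with hA'
  have hAc : ContinuousOn A (Icc 0 R ×ˢ univ) :=
    (hcos.mul (hcg _ hD1.continuousOn)).add (hsin.mul (hcg _ hD2.continuousOn))
  have hA'c : ContinuousOn A' (Icc 0 R ×ˢ univ) :=
    (hcos.mul ((hcos.mul (hcg _ (hcD _ hD1).1)).add (hsin.mul (hcg _ (hcD _ hD1).2)))).add
      (hsin.mul ((hcos.mul (hcg _ (hcD _ hD2).1)).add (hsin.mul (hcg _ (hcD _ hD2).2))))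
  -- the derivative of the mean
  have hM : ∀ r ∈ Ioo 0 R, HasDerivAt (fun s => ∫ φ in (0 : ℝ)..(2 * π), ψ (gam x s φ))
      (∫ φ in (0 : ℝ)..(2 * π), A (r, φ)) r := by
    intro r hr
    exact hasDerivAt_param (F := fun p => ψ (gam x p.1 p.2)) (F' := A) (hcg ψ hψ.continuousOn) hAc
      (fun s hs φ => hasDerivAt_r (hdiff ψ hψ1 _ (gam_mem hdisc ⟨hs.1.le, hs.2.le⟩ φ))) hr
  have hG : ∀ r ∈ Ioo 0 R, HasDerivAt (fun s => ∫ φ in (0 : ℝ)..(2 * π), A (s, φ))
      (∫ φ in (0 : ℝ)..(2 * π), A' (r, φ)) r := by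
    intro r hr
    refine hasDerivAt_param (F := A) (F' := A') hAc hA'c (fun s hs φ => ?_) hr
    have hmem := gam_mem hdisc ⟨hs.1.le, hs.2.le⟩ φ
    exact ((hasDerivAt_r (hdiff _ hD1 _ hmem)).const_mul (Real.cos φ)).add
      ((hasDerivAt_r (hdiff _ hD2 _ hmem)).const_mul (Real.sin φ))
  have hline : ∀ s ∈ Icc 0 R, ∀ G : ℝ × ℝ → ℝ, ContinuousOn G (Icc 0 R ×ˢ univ) →
      Continuous (fun φ => G (s, φ)) := by
    intro s hs G hG
    exact hG.comp_continuous (by fun_prop) (fun φ => ⟨hs, mem_univ _⟩)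
  -- the key identity
  have hkey : ∀ r ∈ Ioo 0 R, (∫ φ in (0 : ℝ)..(2 * π), A (r, φ)) +
      r * (∫ φ in (0 : ℝ)..(2 * π), A' (r, φ)) =
      r * ∫ φ in (0 : ℝ)..(2 * π), Δ (gam x r φ) := by
    intro r hr
    have hr' : r ∈ Icc 0 R := ⟨hr.1.le, hr.2.le⟩
    have cA := hline r hr' A hAc
    have cA' := hline r hr' A' hA'c
    have cΔ := hline r hr' _ (hcg Δ hΔc)
    have hB : ∀ φ, HasDerivAt (fun s => -Real.sin s * D1 ψ (gam x r s) +
        Real.cos s * D2 ψ (gam x r s)) (r * Δ (gam x r φ) - (A (r, φ) + r * A' (r, φ))) φ := by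
      intro φ
      have hmem := gam_mem hdisc hr' φ
      have h1 := ((Real.hasDerivAt_sin φ).neg.mul (hasDerivAt_phi (hdiff _ hD1 _ hmem))).add
        ((Real.hasDerivAt_cos φ).mul (hasDerivAt_phi (hdiff _ hD2 _ hmem)))
      refine h1.congr_deriv ?_
      simp only [hΔ, hA, hA', hsymm _ hmem, Pi.neg_apply]
      have hsc := Real.sin_sq_add_cos_sq φ
      linear_combination (r * D1 (D1 ψ) (gam x r φ) + r * D2 (D2 ψ) (gam x r φ)) * hsc
    have hI := intervalIntegral.integral_eq_sub_of_hasDerivAt (a := 0) (b := 2 * π)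
      (fun φ _ => hB φ) (by
        apply Continuous.intervalIntegrable
        exact (continuous_const.mul cΔ).sub (cA.add (continuous_const.mul cA')))
    have hper : gam x r (2 * π) = gam x r 0 := by simp [gam]
    rw [hper] at hI
    simp only [Real.sin_two_pi, Real.cos_two_pi, Real.sin_zero, Real.cos_zero, sub_self] at hI
    have i1 : IntervalIntegrable (fun y => r * Δ (gam x r y)) volume 0 (2 * π) :=
      (continuous_const.mul cΔ).intervalIntegrable _ _
    have i2 : IntervalIntegrable (fun y => A (r, y)) volume 0 (2 * π) :=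
      cA.intervalIntegrable _ _
    have i3 : IntervalIntegrable (fun y => r * A' (r, y)) volume 0 (2 * π) :=
      (continuous_const.mul cA').intervalIntegrable _ _
    rw [intervalIntegral.integral_sub i1 (i2.add i3), intervalIntegral.integral_add i2 i3,
      intervalIntegral.integral_const_mul, intervalIntegral.integral_const_mul] at hI
    linarith
  -- integration
  have hGc : ContinuousOn (fun s => ∫ φ in (0 : ℝ)..(2 * π), A (s, φ)) (Icc 0 R) :=
    continuousOn_param hR.le hAc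
  have hΔi : ContinuousOn (fun s => ∫ φ in (0 : ℝ)..(2 * π), Δ (gam x s φ)) (Icc 0 R) :=
    continuousOn_param hR.le (hcg Δ hΔc)
  have hN : ∀ r ∈ Ioo 0 R, r * (∫ φ in (0 : ℝ)..(2 * π), A (r, φ)) =
      ∫ s in (0 : ℝ)..r, s * ∫ φ in (0 : ℝ)..(2 * π), Δ (gam x s φ) := by
    intro r hr
    have hsub : Icc 0 r ⊆ Icc 0 R := Icc_subset_Icc_right hr.2.le
    have h1 := intervalIntegral.integral_eq_sub_of_hasDerivAt_of_le hr.1.le
      (f := fun s => s * ∫ φ in (0 : ℝ)..(2 * π), A (s, φ))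
      (f' := fun s => s * ∫ φ in (0 : ℝ)..(2 * π), Δ (gam x s φ))
      (continuousOn_id.mul (hGc.mono hsub)) (by
        intro s hs
        have hs' : s ∈ Ioo 0 R := ⟨hs.1, hs.2.trans hr.2⟩
        have h2 := (hasDerivAt_id s).mul (hG s hs')
        refine h2.congr_deriv ?_
        rw [← hkey s hs']
        simp)
      (by
        apply ContinuousOn.intervalIntegrable
        rw [uIcc_of_le hr.1.le]
        exact continuousOn_id.mul (hΔi.mono hsub))
    rw [h1]
    simp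
  intro r hr
  have hr0 : r ≠ 0 := hr.1.ne'
  have hfin := (hM r hr).const_mul (1 / (2 * π))
  have h3 : (1 / r) * ∫ s in (0 : ℝ)..r, s * cmean Δ x s =
      1 / (2 * π) * ∫ φ in (0 : ℝ)..(2 * π), A (r, φ) := by
    have h4 : ∀ s, s * cmean Δ x s = 1 / (2 * π) * (s * ∫ φ in (0 : ℝ)..(2 * π), Δ (gam x s φ)) := by
      intro s
      unfold cmean gam
      ring
    simp only [h4]
    rw [intervalIntegral.integral_const_mul, ← hN r hr]
    field_simp
  rw [h3]
  exact hfin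

end Pool.Agent.Helper27.PCap
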