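import Pool.Agent.Helper25.PCap.GoalsF

/-!
Planar p-capacity (MP_576c25_an): the packet EXPO (the exponents `a_n`, `b_n`).
-/

set_option autoImplicit false

open MeasureTheory Set Filter Topology
open scoped ContDiff Real

noncomputable section

namespace Pool.Agent.Helper27.PCap

open Pool.Agent.Helper25.PCap

theorem pkExpo : GExpo := by
  intro κ hκ hκ1
  have hnn : ∀ n : ℕ, 0 ≤ (1 - κ) ^ 2 + 4 * κ * (n : ℝ) ^ 2 := fun n => by positivity
  have hsq : ∀ n : ℕ, Real.sqrt ((1 - κ) ^ 2 + 4 * κ * (n : ℝ) ^ 2) ^ 2 =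
      (1 - κ) ^ 2 + 4 * κ * (n : ℝ) ^ 2 := fun n => Real.sq_sqrt (hnn n)
  have h0 : aa κ 0 = 1 - κ := by
    unfold aa
    have : (1 - κ) ^ 2 + 4 * κ * ((0 : ℕ) : ℝ) ^ 2 = (1 - κ) ^ 2 := by simp
    rw [this, Real.sqrt_sq (by linarith)]
    ring
  refine ⟨h0, ?_, ?_, ?_, ?_, ?_, ?_, ?_⟩
  · unfold aa
    have : (1 - κ) ^ 2 + 4 * κ * ((1 : ℕ) : ℝ) ^ 2 = (1 + κ) ^ 2 := by push_cast; ring
    rw [this, Real.sqrt_sq (by linarith)]
    ring
  · unfold bb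
    rw [h0, sub_self]
  · intro n
    unfold bb aa
    linear_combination (1 / 4) * hsq n
  · intro n
    unfold aa
    have : Real.sqrt ((1 - κ) ^ 2 + 4 * κ * (n : ℝ) ^ 2) <
        Real.sqrt ((1 - κ) ^ 2 + 4 * κ * ((n + 1 : ℕ) : ℝ) ^ 2) := by
      apply Real.sqrt_lt_sqrt (hnn n)
      push_cast
      have hn : (0 : ℝ) ≤ n := Nat.cast_nonneg n
      nlinarith
    linarith
  · intro n
    unfold aa
    have hn : (0 : ℝ) ≤ n := Nat.cast_nonneg n
    have : 2 * (Real.sqrt κ * n) ≤ Real.sqrt ((1 - κ) ^ 2 + 4 * κ * (n : ℝ) ^ 2) := by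
      apply Real.le_sqrt_of_sq_le
      have h1 := Real.sq_sqrt hκ.le
      have h2 : (2 * (Real.sqrt κ * n)) ^ 2 = 4 * κ * (n : ℝ) ^ 2 := by
        linear_combination 4 * (n : ℝ) ^ 2 * h1
      rw [h2]
      have := sq_nonneg (1 - κ)
      linarith
    linarith
  · intro n
    unfold aa
    have hn : (0 : ℝ) ≤ n := Nat.cast_nonneg n
    have : Real.sqrt ((1 - κ) ^ 2 + 4 * κ * (n : ℝ) ^ 2) ≤ (1 - κ) + 2 * n := by
      apply Real.sqrt_le_iff.2
      refine ⟨by linarith, ?_⟩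
      have h1 : 0 ≤ (1 - κ) * n := mul_nonneg (by linarith) hn
      have h2 : 0 ≤ (1 - κ) * (n : ℝ) ^ 2 := mul_nonneg (by linarith) (sq_nonneg _)
      nlinarith
    linarith
  · intro n hn
    unfold bb aa
    have hn' : (1 : ℝ) ≤ n := by exact_mod_cast hn
    have : 1 - κ < Real.sqrt ((1 - κ) ^ 2 + 4 * κ * (n : ℝ) ^ 2) := by
      apply Real.lt_sqrt_of_sq_lt
      have : 0 < κ * (n : ℝ) ^ 2 := by positivity
      linarith
    linarith

end Pool.Agent.Helper27.PCap
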