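import Pool.Agent.Helper25.PCap.GoalsB

/-!
Planar p-capacity (MP_576c25_an): the packet B1 (existence of a maximum point).
-/

set_option autoImplicit false

open MeasureTheory Set Filter Topology
open scoped ContDiff Real

noncomputable section

namespace Pool.Agent.Helper27.PCap

open Pool.Agent.Helper25.PCap

section
variable {κ C0 : ℝ} (D : TData κ C0)

theorem b1_cont {z : ℝ × ℝ} (hz : z.1 ≤ D.T z.2) : ContinuousAt D.u z :=
  (D.sys.1.continuousOn).continuousAt (D.Vopen.mem_nhds (D.VT z hz))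

theorem b1_mono (θ : ℝ) : StrictMonoOn (fun s => D.u (s, θ)) (Iic (D.T θ)) := by
  have hd : ∀ s, s ≤ D.T θ → HasDerivAt (fun s => D.u (s, θ)) (D1 D.u (s, θ)) s := by
    intro s hs
    have h1 : HasDerivAt (fun t : ℝ => (t, θ)) ((1 : ℝ), (0 : ℝ)) s :=
      (hasDerivAt_id s).prodMk (hasDerivAt_const s θ)
    have h2 : DifferentiableAt ℝ D.u (s, θ) :=
      (D.sys.1.differentiableOn (by simp)).differentiableAt (D.Vopen.mem_nhds (D.VT (s, θ) hs))
    exact h2.hasFDerivAt.comp_hasDerivAt s h1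
  apply strictMonoOn_of_deriv_pos (convex_Iic _)
  · exact fun s hs => (hd s hs).continuousAt.continuousWithinAt
  · intro s hs
    rw [interior_Iic] at hs
    have hs' : s ≤ D.T θ := (mem_Iio.1 hs).le
    rw [(hd s hs').deriv]
    exact D.upos (s, θ) hs'

theorem b1_lt {z : ℝ × ℝ} (hz : z.1 < D.T z.2) : D.u z < 1 := by
  have h := b1_mono D z.2 (mem_Iic.2 hz.le) (mem_Iic.2 le_rfl) hz
  simp only [D.u1] at h
  exact h

theorem b1_ext_eq {z : ℝ × ℝ} (hz : z.1 ≤ D.T z.2) : D.ext z = D.u z := by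
  unfold TData.ext
  rcases hz.lt_or_eq with h | h
  · rw [if_pos h]
  · rw [if_neg (by rw [h]; exact lt_irrefl _)]
    have h1 := D.u1 z.2
    rw [← h] at h1
    exact h1.symm

theorem b1_ext_one {z : ℝ × ℝ} (hz : D.T z.2 ≤ z.1) : D.ext z = 1 := by
  unfold TData.ext
  rw [if_neg (not_lt.2 hz)]

theorem b1_ext_cont : Continuous D.ext := by
  rw [continuous_iff_continuousAt]
  intro z
  rcases lt_trichotomy z.1 (D.T z.2) with h | h | h
  · have h1 : D.ext =ᶠ[𝓝 z] D.u := by
      have h2 : IsOpen {z : ℝ × ℝ | z.1 < D.T z.2} :=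
        isOpen_lt continuous_fst (D.Tcont.comp continuous_snd)
      filter_upwards [h2.mem_nhds h] with y hy
      exact b1_ext_eq D (le_of_lt hy)
    exact (b1_cont D h.le).congr h1.symm
  · have h1 : D.ext z = 1 := b1_ext_one D h.ge
    have h2 : D.u z = 1 := by rw [← b1_ext_eq D h.le, h1]
    have h3 : Tendsto D.u (𝓝 z) (𝓝 1) := by
      have := b1_cont D h.le
      rwa [ContinuousAt, h2] at this
    rw [ContinuousAt, h1]
    exact Tendsto.if' h3 tendsto_const_nhds
  · have h1 : D.ext =ᶠ[𝓝 z] fun _ => 1 := by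
      have h2 : IsOpen {z : ℝ × ℝ | D.T z.2 < z.1} :=
        isOpen_lt (D.Tcont.comp continuous_snd) continuous_fst
      filter_upwards [h2.mem_nhds h] with y hy
      exact b1_ext_one D (le_of_lt hy)
    exact continuousAt_const.congr h1.symm

theorem b1_ext_mem (z : ℝ × ℝ) : 0 < D.ext z ∧ D.ext z ≤ 1 := by
  rcases lt_or_ge z.1 (D.T z.2) with h | h
  · rw [b1_ext_eq D h.le]
    exact ⟨D.pos z h.le, (b1_lt D h).le⟩
  · rw [b1_ext_one D h]
    exact ⟨one_pos, le_rfl⟩

theorem b1_ext_per (τ θ : ℝ) : D.ext (τ, θ + 2 * π) = D.ext (τ, θ) := by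
  unfold TData.ext
  simp only [D.Tper, D.uper]

end

theorem b1_lam_cont {f : ℝ × ℝ → ℝ} (hf : Continuous f) :
    Continuous (fun p : ℝ × ℝ => ∫ θ in (0 : ℝ)..(2 * π), max 0 (p.2 - f (p.1, θ))) := by
  refine intervalIntegral.continuous_parametric_intervalIntegral_of_continuous'
    (f := fun (p : ℝ × ℝ) θ => max 0 (p.2 - f (p.1, θ))) ?_ 0 (2 * π)
  have : Continuous (fun q : (ℝ × ℝ) × ℝ => f (q.1.1, q.2)) := hf.comp (by fun_prop)
  unfold Function.uncurry
  simp only
  exact continuous_const.max ((by fun_prop : Continuous fun q : (ℝ × ℝ) × ℝ => q.1.2).sub this)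

theorem pkB1 : GB1 := by
  intro κ hκ hκ1 S D
  refine ⟨b1_ext_cont D, b1_ext_mem D, b1_ext_per D, ?_⟩
  rintro ⟨τs, ss, hs0, hs1, hlt⟩
  set δ : ℝ × ℝ → ℝ := fun p => LamT D p.1 p.2 - LamS S.toSData p.1 p.2 with hδ
  have hδc : Continuous δ := (b1_lam_cont (b1_ext_cont D)).sub (b1_lam_cont S.cont)
  have hpi := Real.pi_pos
  -- above
  obtain ⟨τp, hτp⟩ : ∃ τp, ∀ θ, D.T θ ≤ τp := by
    have hper : Function.Periodic D.T (2 * π) := D.Tper
    have hc := hper.compact_of_continuous (by positivity) D.Tcont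
    obtain ⟨b, hb⟩ := hc.bddAbove
    exact ⟨b, fun θ => hb (mem_range_self θ)⟩
  have habove : ∀ τ s, τp ≤ τ → s ≤ 1 → δ (τ, s) ≤ 0 := by
    intro τ s hτ hs
    have h1 : LamT D τ s = 0 := by
      unfold LamT
      have : ∀ θ, max 0 (s - D.ext (τ, θ)) = 0 := by
        intro θ
        rw [b1_ext_one D (z := (τ, θ)) ((hτp θ).trans hτ)]
        exact max_eq_left (by linarith)
      simp only [this, intervalIntegral.integral_zero]
    have h2 : 0 ≤ LamS S.toSData τ s := by
      unfold LamS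
      exact intervalIntegral.integral_nonneg (by positivity) fun θ _ => le_max_left _ _
    simp only [hδ]
    rw [h1]
    linarith
  -- below
  obtain ⟨c, τ₁, hτ₁, -⟩ := D.exp
  have hbelow : ∀ τ s, τ ≤ τ₁ → τ ≤ 0 → δ (τ, s) ≤ 4 * π * S.C0 * Real.exp ((1 - κ) * τ) := by
    intro τ s hτ hτ0
    have hmD := D.mean τ (fun θ => hτ.trans (hτ₁ θ))
    have hmS := S.mean τ hτ0
    have cT : Continuous fun θ => D.ext (τ, θ) := (b1_ext_cont D).comp (by fun_prop)
    have cS : Continuous fun θ => S.u (τ, θ) := S.cont.comp (by fun_prop)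
    have hmD' : ∫ θ in (0 : ℝ)..(2 * π), D.ext (τ, θ) = 2 * π * S.C0 * Real.exp ((1 - κ) * τ) := by
      rw [← hmD]
      apply intervalIntegral.integral_congr
      intro θ _
      exact b1_ext_eq D (z := (τ, θ)) (hτ.trans (hτ₁ θ))
    have hcont1 : Continuous fun θ => max 0 (s - D.ext (τ, θ)) :=
      continuous_const.max (continuous_const.sub cT)
    have hcont2 : Continuous fun θ => max 0 (s - S.u (τ, θ)) :=
      continuous_const.max (continuous_const.sub cS)
    have h1 : δ (τ, s) = ∫ θ in (0 : ℝ)..(2 * π),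
        (max 0 (s - D.ext (τ, θ)) - max 0 (s - S.u (τ, θ))) := by
      simp only [hδ]
      unfold LamT LamS
      rw [intervalIntegral.integral_sub (hcont1.intervalIntegrable _ _)
        (hcont2.intervalIntegrable _ _)]
    have h2 : δ (τ, s) ≤ ∫ θ in (0 : ℝ)..(2 * π), (D.ext (τ, θ) + S.u (τ, θ)) := by
      rw [h1]
      apply intervalIntegral.integral_mono_on (by positivity)
        ((hcont1.sub hcont2).intervalIntegrable _ _) ((cT.add cS).intervalIntegrable _ _)
      intro θ _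
      have h3 := (b1_ext_mem D (τ, θ)).1
      have h4 := S.pos (τ, θ)
      have h5 : max 0 (s - D.ext (τ, θ)) ≤ max 0 (s - S.u (τ, θ)) + S.u (τ, θ) := by
        apply max_le
        · have := le_max_left 0 (s - S.u (τ, θ))
          linarith
        · have := le_max_right 0 (s - S.u (τ, θ))
          linarith
      change max 0 (s - D.ext (τ, θ)) - max 0 (s - S.u (τ, θ)) ≤ D.ext (τ, θ) + S.u (τ, θ)
      linarith
    rw [intervalIntegral.integral_add (cT.intervalIntegrable _ _) (cS.intervalIntegrable _ _),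
      hmD', hmS] at h2
    linarith
  -- the maximum
  set m := δ (τs, ss) with hm
  have hm0 : 0 < m := by
    simp only [hm, hδ]
    linarith
  have htend : Tendsto (fun τ : ℝ => 4 * π * S.C0 * Real.exp ((1 - κ) * τ)) atBot (𝓝 0) := by
    have h1 : Tendsto (fun τ : ℝ => Real.exp ((1 - κ) * τ)) atBot (𝓝 0) :=
      Real.tendsto_exp_atBot.comp (tendsto_id.const_mul_atBot (by linarith))
    simpa using h1.const_mul (4 * π * S.C0)
  obtain ⟨τm, hτm⟩ := eventually_atBot.1 ((htend.eventually (gt_mem_nhds hm0)).and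
    ((eventually_le_atBot τ₁).and (eventually_le_atBot 0)))
  have hlow : ∀ τ s, τ ≤ τm → δ (τ, s) < m := by
    intro τ s hτ
    obtain ⟨h1, h2, h3⟩ := hτm τ hτ
    exact lt_of_le_of_lt (hbelow τ s h2 h3) h1
  have hsin : (τs, ss) ∈ Icc τm τp ×ˢ Icc (0 : ℝ) 1 := by
    refine ⟨⟨?_, ?_⟩, hs0, hs1⟩
    · by_contra hcon
      push Not at hcon
      exact lt_irrefl _ (hlow τs ss hcon.le)
    · by_contra hcon
      push Not at hcon
      have := habove τs ss hcon.le hs1
      linarith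
  obtain ⟨⟨τ₀, s₀⟩, ⟨hτ0mem, hs0mem⟩, hmax⟩ := (isCompact_Icc.prod isCompact_Icc).exists_isMaxOn
    ⟨_, hsin⟩ (hδc.continuousOn (s := Icc τm τp ×ˢ Icc (0 : ℝ) 1))
  have hm1 : m ≤ δ (τ₀, s₀) := hmax hsin
  refine ⟨τ₀, s₀, hs0mem.1, hs0mem.2, ?_, ?_⟩
  · have h1 : 0 < δ (τ₀, s₀) := lt_of_lt_of_le hm0 hm1
    simp only [hδ] at h1
    linarith
  · intro τ s h0 h1
    change δ (τ, s) ≤ δ (τ₀, s₀)
    rcases le_total τ τm with h2 | h2
    · exact (hlow τ s h2).le.trans hm1
    · rcases le_total τp τ with h3 | h3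
      · have := habove τ s h3 h1
        linarith
      · exact hmax (show (τ, s) ∈ Icc τm τp ×ˢ Icc (0 : ℝ) 1 from ⟨⟨h2, h3⟩, h0, h1⟩)

end Pool.Agent.Helper27.PCap
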