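import Pool.Agent.Helper25.PCap.GoalsA

/-!
Planar p-capacity (MP_576c25_an): the packet BDRY (abstract boundary lemma).
-/

set_option autoImplicit false

open MeasureTheory Set Filter Topology
open scoped ContDiff Real

noncomputable section

namespace Pool.Agent.Helper27.PCap

open Pool.Agent.Helper25.PCap

theorem bdry_lin (L : ℝ × ℝ →L[ℝ] ℝ) (a b : ℝ) : L (a, b) = a * L (1, 0) + b * L (0, 1) := by
  have : ((a, b) : ℝ × ℝ) = a • (1, 0) + b • (0, 1) := by simp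
  rw [this, map_add, map_smul, map_smul, smul_eq_mul, smul_eq_mul]

/-- The chain rule along a curve. -/
theorem bdry_comp {g : ℝ × ℝ → ℝ} {c : ℝ → ℝ × ℝ} {t a b : ℝ} (hc : HasDerivAt c (a, b) t)
    (hg : DifferentiableAt ℝ g (c t)) :
    HasDerivAt (fun s => g (c s)) (a * D1 g (c t) + b * D2 g (c t)) t := by
  have h := hg.hasFDerivAt.comp_hasDerivAt t hc
  rw [bdry_lin] at h
  exact h

theorem bdry_pos {φ : ℝ → ℝ} {φ' : ℝ} (h : HasDerivAt φ φ' 0) (h0 : φ 0 = 0) (hφ : 0 < φ') :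
    ∀ᶠ t in 𝓝[>] (0 : ℝ), 0 < φ t := by
  have h1 := (hasDerivAt_iff_tendsto_slope.1 h).mono_left (nhdsGT_le_nhdsNE 0)
  filter_upwards [h1.eventually (lt_mem_nhds hφ), self_mem_nhdsWithin] with t ht ht0
  have ht0' : (0 : ℝ) < t := ht0
  rw [slope_def_field, h0, sub_zero, sub_zero] at ht
  exact (div_pos_iff_of_pos_right ht0').1 ht

theorem bdry_nonneg {φ : ℝ → ℝ} {φ' : ℝ} (h : HasDerivAt φ φ' 0) (h0 : φ 0 = 0)
    (hφ : ∀ᶠ t in 𝓝[>] (0 : ℝ), 0 ≤ φ t) : 0 ≤ φ' := by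
  have h1 := (hasDerivAt_iff_tendsto_slope.1 h).mono_left (nhdsGT_le_nhdsNE 0)
  refine ge_of_tendsto h1 ?_
  filter_upwards [hφ, self_mem_nhdsWithin] with t ht ht0
  have ht0' : (0 : ℝ) < t := ht0
  rw [slope_def_field, h0, sub_zero, sub_zero]
  exact div_nonneg ht ht0'.le

/-- The inequality of the derivatives in a direction in which `u` decreases. -/
theorem bdry_dir {u om ut omt : ℝ × ℝ → ℝ} {N M : Set (ℝ × ℝ)} {τ₀ θ₀ : ℝ} (hN : IsOpen N)
    (hM : IsOpen M) (hzN : (τ₀, θ₀) ∈ N) (hzM : (τ₀, (0 : ℝ)) ∈ M) (hu : ContDiffOn ℝ ∞ u N)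
    (hom : ContDiffOn ℝ ∞ om N) (hut : ContDiffOn ℝ ∞ ut M) (homt : ContDiffOn ℝ ∞ omt M)
    (hu0 : u (τ₀, θ₀) = ut (τ₀, 0)) (hom0 : om (τ₀, θ₀) = omt (τ₀, 0))
    (hp : D1 ut (τ₀, 0) = 0) (hq : D2 ut (τ₀, 0) < 0)
    (H : ∀ τ θ ϑ, (τ, θ) ∈ N → (τ, ϑ) ∈ M → 0 < ϑ → ut (τ, ϑ) = u (τ, θ) →
      om (τ, θ) ≤ omt (τ, ϑ)) (d1 d2 : ℝ)
    (hs : d1 * D1 u (τ₀, θ₀) + d2 * D2 u (τ₀, θ₀) < 0) :
    d1 * D1 om (τ₀, θ₀) + d2 * D2 om (τ₀, θ₀) ≤ d1 * D1 omt (τ₀, 0) +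
      (d1 * D1 u (τ₀, θ₀) + d2 * D2 u (τ₀, θ₀)) / D2 ut (τ₀, 0) * D2 omt (τ₀, 0) := by
  set s := d1 * D1 u (τ₀, θ₀) + d2 * D2 u (τ₀, θ₀) with hsdef
  set q := D2 ut (τ₀, 0) with hqdef
  have hq0 : q ≠ 0 := hq.ne
  have hdiffN : ∀ g : ℝ × ℝ → ℝ, ContDiffOn ℝ ∞ g N → DifferentiableAt ℝ g (τ₀, θ₀) :=
    fun g hg => (hg.differentiableOn (by simp)).differentiableAt (hN.mem_nhds hzN)
  have hdiffM : ∀ g : ℝ × ℝ → ℝ, ContDiffOn ℝ ∞ g M → DifferentiableAt ℝ g (τ₀, (0 : ℝ)) :=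
    fun g hg => (hg.differentiableOn (by simp)).differentiableAt (hM.mem_nhds hzM)
  -- the local inverse of `(τ, ϑ) ↦ (τ, ut (τ, ϑ))`
  set L : ℝ × ℝ →L[ℝ] ℝ := fderiv ℝ ut (τ₀, 0) with hL
  have hLval : ∀ a b : ℝ, L (a, b) = b * q := by
    intro a b
    rw [bdry_lin]
    have h1 : L (1, 0) = 0 := hp
    have h2 : L (0, 1) = q := rfl
    rw [h1, h2]
    ring
  have hstrict : HasStrictFDerivAt (fun z : ℝ × ℝ => (z.1, ut z))
      ((ContinuousLinearMap.fst ℝ ℝ ℝ).prod L) (τ₀, 0) :=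
    hasStrictFDerivAt_fst.prodMk
      ((hut.contDiffAt (hM.mem_nhds hzM)).hasStrictFDerivAt (by simp))
  set e : (ℝ × ℝ) ≃L[ℝ] (ℝ × ℝ) := ContinuousLinearEquiv.equivOfInverse
    ((ContinuousLinearMap.fst ℝ ℝ ℝ).prod L)
    ((ContinuousLinearMap.fst ℝ ℝ ℝ).prod (q⁻¹ • ContinuousLinearMap.snd ℝ ℝ ℝ))
    (by
      rintro ⟨a, b⟩
      simp only [ContinuousLinearMap.prod_apply, ContinuousLinearMap.coe_fst',
        smul_apply, ContinuousLinearMap.coe_snd', hLval, smul_eq_mul]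
      rw [mul_comm b q, inv_mul_cancel_left₀ hq0])
    (by
      rintro ⟨a, b⟩
      simp only [ContinuousLinearMap.prod_apply, ContinuousLinearMap.coe_fst',
        smul_apply, ContinuousLinearMap.coe_snd', hLval, smul_eq_mul]
      rw [mul_comm (q⁻¹ * b) q, mul_inv_cancel_left₀ hq0]) with he
  have hstrict' : HasStrictFDerivAt (fun z : ℝ × ℝ => (z.1, ut z)) (e : ℝ × ℝ →L[ℝ] ℝ × ℝ)
      (τ₀, 0) := hstrict
  set g := hstrict'.localInverse with hg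
  have hginv := hstrict'.eventually_right_inverse
  have hgd := hstrict'.to_localInverse
  have hg0 := hstrict'.localInverse_apply_image
  rw [← hg] at hginv hgd hg0
  simp only at hginv hgd hg0
  -- the curves
  set c : ℝ → ℝ × ℝ := fun t => (τ₀ + t * d1, θ₀ + t * d2) with hc
  have hc0 : c 0 = (τ₀, θ₀) := by simp [hc]
  have hcd : HasDerivAt c (d1, d2) 0 := by
    apply HasDerivAt.prodMk
    · simpa using ((hasDerivAt_id (0 : ℝ)).mul_const d1).const_add τ₀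
    · simpa using ((hasDerivAt_id (0 : ℝ)).mul_const d2).const_add θ₀
  have hucd : HasDerivAt (fun t => u (c t)) s 0 := by
    have h1 := bdry_comp (g := u) hcd (by rw [hc0]; exact hdiffN u hu)
    rwa [hc0] at h1
  set F : ℝ → ℝ × ℝ := fun t => (τ₀ + t * d1, u (c t)) with hF
  have hF0 : F 0 = (τ₀, ut (τ₀, 0)) := by
    simp only [hF, hc0, zero_mul, add_zero, hu0]
  have hFd : HasDerivAt F (d1, s) 0 := by
    apply HasDerivAt.prodMk
    · simpa using ((hasDerivAt_id (0 : ℝ)).mul_const d1).const_add τ₀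
    · exact hucd
  have hwd : HasDerivAt (fun t => g (F t)) (d1, q⁻¹ * s) 0 := by
    have h1 := HasFDerivAt.comp_hasDerivAt (0 : ℝ) (f := F) (l := g)
      (l' := (e.symm : ℝ × ℝ →L[ℝ] ℝ × ℝ)) (f' := (d1, s)) (by
        rw [hF0]
        exact hgd.hasFDerivAt) hFd
    exact h1
  have hw0 : g (F 0) = (τ₀, 0) := by
    rw [hF0]
    exact hg0
  have hcont : ContinuousAt (fun t => g (F t)) 0 := hwd.continuousAt
  have ev1 : ∀ᶠ t in 𝓝[>] (0 : ℝ), g (F t) ∈ M :=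
    mem_nhdsWithin_of_mem_nhds (hcont (by
      simp only [hw0]
      exact hM.mem_nhds hzM))
  have ev2 : ∀ᶠ t in 𝓝[>] (0 : ℝ), c t ∈ N :=
    mem_nhdsWithin_of_mem_nhds (hcd.continuousAt (by
      rw [hc0]
      exact hN.mem_nhds hzN))
  have ev3 : ∀ᶠ t in 𝓝[>] (0 : ℝ), ((g (F t)).1, ut (g (F t))) = F t :=
    mem_nhdsWithin_of_mem_nhds (hFd.continuousAt (by
      rw [hF0]
      exact hginv))
  have hw2 : HasDerivAt (fun t => (g (F t)).2) (q⁻¹ * s) 0 := by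
    have h1 := (ContinuousLinearMap.snd ℝ ℝ ℝ).hasFDerivAt.comp_hasDerivAt (0 : ℝ) hwd
    exact h1
  have ev4 : ∀ᶠ t in 𝓝[>] (0 : ℝ), 0 < (g (F t)).2 := by
    apply bdry_pos hw2
    · rw [hw0]
    · exact mul_pos_of_neg_of_neg (inv_lt_zero.2 hq) hs
  have hΦ : HasDerivAt (fun t => omt (g (F t)) - om (c t))
      (d1 * D1 omt (τ₀, 0) + q⁻¹ * s * D2 omt (τ₀, 0) -
        (d1 * D1 om (τ₀, θ₀) + d2 * D2 om (τ₀, θ₀))) 0 := by
    have h1 := bdry_comp (g := omt) hwd (by rw [hw0]; exact hdiffM omt homt)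
    have h2 := bdry_comp (g := om) hcd (by rw [hc0]; exact hdiffN om hom)
    rw [hw0] at h1
    rw [hc0] at h2
    exact h1.sub h2
  have hnn := bdry_nonneg hΦ (by rw [hw0, hc0, hom0, sub_self]) (by
    filter_upwards [ev1, ev2, ev3, ev4] with t h1 h2 h3 h4
    rw [sub_nonneg]
    have h5 : (g (F t)).1 = τ₀ + t * d1 := congrArg Prod.fst h3
    have h6 : ut (g (F t)) = u (c t) := congrArg Prod.snd h3
    have h7 : g (F t) = (τ₀ + t * d1, (g (F t)).2) := by rw [← h5]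
    rw [h7] at h1 h6 ⊢
    exact H _ _ _ h2 h1 h4 h6)
  rw [div_eq_inv_mul]
  linarith

theorem pkBdry : GBdry := by
  intro κ C0 u om ut omt N M τ₀ θ₀ α hκ hκ1 hC0 hN hM hzN hzM hS hS' hu hom hu1 hα hq H
  obtain ⟨husm, homsm, hS2, hS1⟩ := hS
  obtain ⟨hutsm, homtsm, hT2, hT1⟩ := hS'
  have hutd : DifferentiableAt ℝ ut (τ₀, (0 : ℝ)) :=
    (hutsm.differentiableOn (by simp)).differentiableAt (hM.mem_nhds hzM)
  have hline : HasDerivAt (fun τ : ℝ => (τ, (0 : ℝ))) (1, 0) τ₀ :=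
    (hasDerivAt_id τ₀).prodMk (hasDerivAt_const τ₀ 0)
  have hp : D1 ut (τ₀, 0) = 0 := by
    have h1 : HasDerivAt (fun τ => ut (τ, 0)) (1 * D1 ut (τ₀, 0) + 0 * D2 ut (τ₀, 0)) τ₀ :=
      bdry_comp hline hutd
    have h2 : (fun τ => ut (τ, 0)) =ᶠ[𝓝 τ₀] fun _ => α := by
      have h3 : ∀ᶠ τ in 𝓝 τ₀, (τ, (0 : ℝ)) ∈ M :=
        hline.continuousAt (hM.mem_nhds hzM)
      filter_upwards [h3] with τ hτ
      exact hα τ hτ
    have h4 := (h1.congr_of_eventuallyEq h2.symm).unique (hasDerivAt_const τ₀ α)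
    linarith
  have hdir := bdry_dir hN hM hzN hzM husm homsm hutsm homtsm (by rw [hu, hα τ₀ hzM]) hom hp hq H
  have e1 := hS2 _ hzN
  have e2 := hS1 _ hzN
  have e3 := hT2 _ hzM
  have e4 := hT1 _ hzM
  rw [hp, mul_zero, zero_sub] at e3
  simp only at e1 e2 e3 e4
  set E := Real.exp (-(1 - κ) * τ₀) with hE
  have hEpos : 0 < E := Real.exp_pos _
  have hB : 0 < BB κ C0 := by
    unfold BB
    exact one_div_pos.2 (mul_pos (by linarith) hC0)
  set B := BB κ C0 with hBdef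
  have hBE : 0 < B * E := mul_pos hB hEpos
  set P := -D2 ut (τ₀, 0) with hP
  have hPpos : 0 < P := by rw [hP]; linarith
  have hD2 : D2 ut (τ₀, 0) = -P := by rw [hP, neg_neg]
  set a := D1 u (τ₀, θ₀) with ha
  set b := D2 u (τ₀, θ₀) with hb
  -- the direction `(-1, 0)`
  have h1 := hdir (-1) 0 (by linarith)
  rw [e2, e4, e3, hD2] at h1
  have h1' : κ * (B * E) * (b + P) + a / P ≤ 0 := by
    have : (-1 * a + 0 * b) / -P * -1 = -(a / P) := by
      field_simp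
      ring
    rw [this] at h1
    linarith
  have hbP : b + P < 0 := by
    by_contra hcon
    push Not at hcon
    have h2 : 0 ≤ κ * (B * E) * (b + P) := by positivity
    have h3 : 0 < a / P := div_pos hu1 hPpos
    linarith
  -- the direction `(0, 1)`
  have h2 := hdir 0 1 (by linarith)
  rw [e1, e3, hD2] at h2
  have h2' : B * E * a ≤ (b + P) / P := by
    have : (0 * a + 1 * b) / -P * -1 = b / P := by
      field_simp
      ring
    rw [this] at h2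
    have h3 : (b + P) / P = b / P + 1 := by
      field_simp
    rw [h3]
    linarith
  have h3 : 0 < B * E * a := mul_pos hBE hu1
  have h4 : (b + P) / P < 0 := div_neg_of_neg_of_pos hbP hPpos
  linarith

end Pool.Agent.Helper27.PCap
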