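import Pool.Agent.Helper25.PCap.GoalsF

/-!
Planar p-capacity (MP_576c25_an): the packet CU1 (positivity, range and mean of `u`).
-/

set_option autoImplicit false

open MeasureTheory Set Filter Topology
open scoped ContDiff Real

noncomputable section

namespace Pool.Agent.Helper27.PCap

open Pool.Agent.Helper25.PCap

theorem hasDerivAt_D1 {F : ℝ × ℝ → ℝ} {s θ : ℝ} (hF : DifferentiableAt ℝ F (s, θ)) :
    HasDerivAt (fun t => F (t, θ)) (D1 F (s, θ)) s := by
  have h1 : HasDerivAt (fun t : ℝ => (t, θ)) ((1 : ℝ), (0 : ℝ)) s :=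
    (hasDerivAt_id s).prodMk (hasDerivAt_const s θ)
  exact hF.hasFDerivAt.comp_hasDerivAt s h1

/-- Differentiation under the integral sign for a `C¹` function on an open set. -/
theorem hasDerivAt_integral_fst {V : Set (ℝ × ℝ)} (hV : IsOpen V) {F : ℝ × ℝ → ℝ}
    (hF : ContDiffOn ℝ 1 F V) {τ a b : ℝ} (h : ∀ θ ∈ uIcc a b, (τ, θ) ∈ V) :
    HasDerivAt (fun s => ∫ θ in a..b, F (s, θ)) (∫ θ in a..b, D1 F (τ, θ)) τ := by
  have hfd : ContinuousOn (D1 F) V := by
    have h1 : ContDiffOn ℝ 0 (fderiv ℝ F) V := hF.fderiv_of_isOpen hV (by norm_num)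
    exact h1.continuousOn.clm_apply continuousOn_const
  obtain ⟨u, v, hu, -, hτu, hv, huv⟩ := generalized_tube_lemma (isCompact_singleton (x := τ))
    (isCompact_uIcc (a := a) (b := b)) hV (by
      rintro ⟨s, θ⟩ ⟨hs, hθ⟩
      rw [mem_singleton_iff] at hs
      simp only at hs
      subst hs
      exact h θ hθ)
  obtain ⟨δ, hδ, hball⟩ := Metric.isOpen_iff.1 hu τ (hτu rfl)
  have hsub : Metric.closedBall τ (δ / 2) ×ˢ uIcc a b ⊆ V := by
    rintro ⟨s, θ⟩ ⟨hs, hθ⟩
    exact huv ⟨hball (Metric.closedBall_subset_ball (by linarith) hs), hv hθ⟩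
  obtain ⟨C, hC⟩ := ((isCompact_closedBall τ (δ / 2)).prod
    (isCompact_uIcc (a := a) (b := b))).exists_bound_of_continuousOn (hfd.mono hsub)
  have hline : ∀ s ∈ Metric.ball τ (δ / 2), ∀ G : ℝ × ℝ → ℝ, ContinuousOn G V →
      ContinuousOn (fun θ => G (s, θ)) (uIcc a b) := by
    intro s hs G hG
    exact hG.comp (by fun_prop) (fun θ hθ => hsub ⟨Metric.ball_subset_closedBall hs, hθ⟩)
  have hδ2 : 0 < δ / 2 := by linarith
  refine (intervalIntegral.hasDerivAt_integral_of_dominated_loc_of_deriv_le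
    (F := fun s φ => F (s, φ)) (F' := fun s φ => D1 F (s, φ)) (s := Metric.ball τ (δ / 2))
    (bound := fun _ => C) (Metric.ball_mem_nhds τ hδ2) ?_ ?_ ?_ ?_ ?_ ?_).2
  · filter_upwards [Metric.ball_mem_nhds τ hδ2] with s hs
    exact ((hline s hs F hF.continuousOn).mono uIoc_subset_uIcc).aestronglyMeasurable
      measurableSet_uIoc
  · exact (hline τ (Metric.mem_ball_self hδ2) F hF.continuousOn).intervalIntegrable
  · exact ((hline τ (Metric.mem_ball_self hδ2) _ hfd).mono uIoc_subset_uIcc).aestronglyMeasurable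
      measurableSet_uIoc
  · refine Eventually.of_forall fun φ hφ s hs => ?_
    exact hC (s, φ) ⟨Metric.ball_subset_closedBall hs, uIoc_subset_uIcc hφ⟩
  · exact intervalIntegrable_const
  · refine Eventually.of_forall fun φ hφ s hs => ?_
    have hm : (s, φ) ∈ V := hsub ⟨Metric.ball_subset_closedBall hs, uIoc_subset_uIcc hφ⟩
    exact hasDerivAt_D1 ((hF.differentiableOn one_ne_zero).differentiableAt (hV.mem_nhds hm))

theorem pkCU1 (hc : GCU0) (he : GCE) : GCU1 := by
  intro κ hκ hκ1 C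
  obtain ⟨husm, -, -, -, -, -, -, hu1, hupos⟩ := hc κ hκ hκ1 C
  obtain ⟨K, τ₁, hτ₁, hE⟩ := he κ hκ hκ1 C
  have hD : ∀ z ∈ C.V, DifferentiableAt ℝ C.u z := fun z hz =>
    (husm.differentiableOn (by simp)).differentiableAt (C.Vopen.mem_nhds hz)
  have hmono : ∀ θ, StrictMonoOn (fun s => C.u (s, θ)) (Iic (C.T θ)) := by
    intro θ
    have hd : ∀ s ∈ Iic (C.T θ), HasDerivAt (fun s => C.u (s, θ)) (D1 C.u (s, θ)) s :=
      fun s hs => hasDerivAt_D1 (hD _ (C.VT (s, θ) hs))
    apply strictMonoOn_of_deriv_pos (convex_Iic _)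
    · exact fun s hs => (hd s hs).continuousAt.continuousWithinAt
    · intro s hs
      rw [interior_Iic] at hs
      have hs' : s ≤ C.T θ := (mem_Iio.1 hs).le
      rw [(hd s hs').deriv]
      exact hupos (s, θ) hs'
  have ha2 : 0 < aa κ 2 := by
    unfold aa
    exact div_pos (add_pos_of_pos_of_nonneg (by linarith) (Real.sqrt_nonneg _)) two_pos
  have hexp : ∀ a : ℝ, 0 < a → Tendsto (fun s : ℝ => Real.exp (a * s)) atBot (𝓝 0) := by
    intro a ha
    exact Real.tendsto_exp_atBot.comp (tendsto_id.const_mul_atBot ha)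
  have hlim : ∀ θ, Tendsto (fun s => C.u (s, θ)) atBot (𝓝 0) := by
    intro θ
    have h1 : Tendsto (fun s => C.u (s, θ) - C.C0 * Real.exp ((1 - κ) * s)) atBot (𝓝 0) := by
      rw [tendsto_zero_iff_abs_tendsto_zero]
      refine squeeze_zero' (Eventually.of_forall fun s => abs_nonneg _)
        (g := fun s => K * Real.exp (aa κ 2 * s)) ?_ ?_
      · filter_upwards [eventually_le_atBot τ₁] with s hs
        exact (hE s θ hs).2.2.2.1
      · simpa using (hexp _ ha2).const_mul K
    have h2 : Tendsto (fun s => C.C0 * Real.exp ((1 - κ) * s)) atBot (𝓝 0) := by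
      simpa using (hexp (1 - κ) (by linarith)).const_mul C.C0
    simpa using h1.add h2
  have hnn : ∀ z : ℝ × ℝ, z.1 ≤ C.T z.2 → 0 ≤ C.u z := by
    rintro ⟨τ, θ⟩ hz
    refine le_of_tendsto (hlim θ) ?_
    filter_upwards [eventually_le_atBot τ] with s hs
    exact (hmono θ).monotoneOn (hs.trans hz) hz hs
  refine ⟨?_, ?_, ?_⟩
  · rintro ⟨τ, θ⟩ hz
    simp only at hz
    have h1 := hnn (τ - 1, θ) (by simp only; linarith)
    have h2 := hmono θ (show τ - 1 ∈ Iic (C.T θ) by rw [mem_Iic]; linarith) hz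
      (by linarith : τ - 1 < τ)
    exact lt_of_le_of_lt h1 h2
  · rintro ⟨τ, θ⟩ hz
    simp only at hz
    have h2 := hmono θ (mem_Iic.2 hz.le) (mem_Iic.2 le_rfl) hz
    simp only [hu1] at h2
    exact h2
  · intro τ hτ
    have hVτ : ∀ θ, (τ, θ) ∈ C.V := fun θ => C.VT (τ, θ) (hτ θ)
    have hW1 : ContDiffOn ℝ 1 C.W C.V := C.smooth.of_le (by exact_mod_cast le_top)
    have hder := hasDerivAt_integral_fst C.Vopen hW1 (a := 0) (b := 2 * π) (τ := τ)
      (fun θ _ => hVτ θ)
    have hder2 : HasDerivAt (fun s => 2 * π * (-1 + C.C0 / κ * Real.exp ((1 - κ) * s)))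
        (2 * π * (C.C0 / κ * (Real.exp ((1 - κ) * τ) * (1 - κ)))) τ := by
      have h1 : HasDerivAt (fun s => (1 - κ) * s) (1 - κ) τ := by
        simpa using (hasDerivAt_id τ).const_mul (1 - κ)
      exact (((h1.exp).const_mul (C.C0 / κ)).const_add (-1)).const_mul (2 * π)
    have hder3 : HasDerivWithinAt (fun s => ∫ θ in (0 : ℝ)..(2 * π), C.W (s, θ))
        (2 * π * (C.C0 / κ * (Real.exp ((1 - κ) * τ) * (1 - κ)))) (Iic τ) τ :=
      hder2.hasDerivWithinAt.congr (fun s hs => C.mean s fun θ => (le_trans hs (hτ θ)))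
        (C.mean τ hτ)
    have heq := (uniqueDiffWithinAt_Iic τ).eq_deriv _ hder.hasDerivWithinAt hder3
    have hcW : Continuous (fun θ => C.W (τ, θ)) :=
      hW1.continuousOn.comp_continuous (by fun_prop) hVτ
    have hcD : Continuous (fun θ => D1 C.W (τ, θ)) := by
      have h1 : ContDiffOn ℝ 0 (fderiv ℝ C.W) C.V := hW1.fderiv_of_isOpen C.Vopen (by norm_num)
      exact (h1.continuousOn.clm_apply continuousOn_const).comp_continuous (by fun_prop) hVτ
    have hu : ∀ θ, C.u (τ, θ) = (1 + C.W (τ, θ)) - D1 C.W (τ, θ) := fun θ => rfl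
    simp only [hu]
    have i1 : IntervalIntegrable (fun θ => C.W (τ, θ)) volume 0 (2 * π) :=
      hcW.intervalIntegrable _ _
    have i2 : IntervalIntegrable (fun θ => D1 C.W (τ, θ)) volume 0 (2 * π) :=
      hcD.intervalIntegrable _ _
    have i3 : IntervalIntegrable (fun _ : ℝ => (1 : ℝ)) volume 0 (2 * π) :=
      intervalIntegrable_const
    rw [intervalIntegral.integral_sub (i3.add i1) i2, intervalIntegral.integral_add i3 i1, heq,
      C.mean τ hτ]
    simp only [intervalIntegral.integral_const, smul_eq_mul, mul_one, sub_zero]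
    field_simp
    ring

end Pool.Agent.Helper27.PCap
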