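import Pool.Agent.Helper25.PCap.GoalsP
import Pool.Agent.Helper25.PCap.GoalsF

/-!
Planar p-capacity (MP_576c25_an): the packet P5 (injectivity of the physical map).
-/

set_option autoImplicit false

open MeasureTheory Set Filter Topology
open scoped ContDiff Real

noncomputable section

namespace Pool.Agent.Helper27.PCap

open Pool.Agent.Helper25.PCap

theorem pkP5 (h1 : GCU1) (h2 : GP2) (h3 : GP3) (h4 : GP4) : GP5 := by
  intro κ hκ hκ1 C
  obtain ⟨hpos, hlt, -⟩ := h1 κ hκ hκ1 C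
  obtain ⟨hlev, hinv, hlev1, -, hper, -, -, -⟩ := h2 κ hκ hκ1 C
  obtain ⟨-, -, hdn, -, hle, heq⟩ := h3 κ hκ hκ1 C
  obtain ⟨hnest, -, -, -⟩ := h4 κ hκ hκ1 C
  have hle1 : ∀ z : ℝ × ℝ, z.1 ≤ C.T z.2 → C.u z ≤ 1 := by
    intro z hz
    rcases hz.lt_or_eq with h | h
    · exact (hlt z h).le
    · have e1 := (hlev 1 z.2 one_pos le_rfl).2
      rw [hlev1, ← h] at e1
      exact e1.le
  -- strict inequality of the levels is impossible
  have key : ∀ z z' : ℝ × ℝ, z.1 ≤ C.T z.2 → z'.1 ≤ C.T z'.2 → C.X z = C.X z' →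
      ¬ C.u z < C.u z' := by
    intro z z' hz hz' hX hss
    have e1 := hdn (C.u z) z.2
    have e2 := hle (C.u z') z'.2 z.2 (hpos z' hz') (hle1 z' hz')
    rw [hinv z hz] at e1
    rw [hinv z' hz'] at e2
    have e3 := hnest (C.u z) (C.u z') z.2 (hpos z hz) hss (hle1 z' hz')
    have e4 : C.X (z.1, z.2) = C.X (z'.1, z'.2) := hX
    rw [e4] at e1
    linarith
  intro z z' hz hz' hX
  have hs : C.u z = C.u z' := by
    rcases lt_trichotomy (C.u z) (C.u z') with h | h | h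
    · exact absurd h (key z z' hz hz' hX)
    · exact h
    · exact absurd h (key z' z hz' hz hX.symm)
  have e1 := hdn (C.u z) z.2
  rw [hinv z hz] at e1
  have e4 : C.X (z.1, z.2) = C.X (z'.1, z'.2) := hX
  rw [e4] at e1
  have e2 := heq (C.u z) z'.2 z.2 (hpos z hz) (hle1 z hz) (by
    rw [hs, hinv z' hz', ← hs]
    exact e1)
  obtain ⟨n, hn⟩ := e2
  have hP : Function.Periodic (C.lev (C.u z)) (2 * π) := hper (C.u z)
  refine ⟨?_, -n, ?_⟩
  · have e5 : C.lev (C.u z) z'.2 = C.lev (C.u z) z.2 := by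
      rw [hn]
      exact hP.int_mul n z.2
    rw [← hinv z hz, ← hinv z' hz', ← hs, e5]
  · rw [hn]
    push_cast
    ring

end Pool.Agent.Helper27.PCap
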